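import Mathlib

set_option autoImplicit false
set_option maxHeartbeats 400000

namespace Pool.Agent.H.MP_018f72_lc

open Finset

theorem intcomb {X Θ : Type} [Fintype Θ] (V : X → Θ → ℤ) (M : ℤ) (hb : ∀ h θ, |V h θ| ≤ M)
    (hf : ∀ (f : (Θ → ℝ) →L[ℝ] ℝ) (u : ℝ), 0 < u → ¬ ∀ h, u < f (fun θ => (V h θ : ℝ))) :
    ∃ (J : Type) (_ : Fintype J) (_ : Nonempty J) (hh : J → X), ∑ j, V (hh j) = 0 := by
  classical
  set s : Set (Θ → ℝ) := Set.range (fun h θ => (V h θ : ℝ)) with hs
  have hfin : s.Finite := by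
    have h1 : (Set.range V).Finite := by
      refine (Set.Finite.pi' (fun _ : Θ => Set.finite_Icc (-M) M)).subset ?_
      rintro _ ⟨h, rfl⟩ θ
      exact abs_le.1 (hb h θ)
    refine (h1.image (fun v θ => (v θ : ℝ))).subset ?_
    rintro _ ⟨h, rfl⟩
    exact ⟨_, ⟨h, rfl⟩, rfl⟩
  have h0 : (0 : Θ → ℝ) ∈ convexHull ℝ s := by
    by_contra hn
    obtain ⟨f, u, h1, h2⟩ := geometric_hahn_banach_point_closed (convex_convexHull ℝ s)
      (hfin.isClosed_convexHull ℝ) hn
    rw [map_zero] at h1
    exact hf f u h1 fun h => h2 _ (subset_convexHull ℝ s ⟨h, rfl⟩)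
  obtain ⟨ι, _, z, w, hz, haff, hw, hw1, hw0⟩ := eq_pos_convex_span_of_mem_convexHull h0
  choose x hx using fun i => hz ⟨i, rfl⟩
  have hne : Nonempty ι := by
    by_contra hn
    rw [not_nonempty_iff] at hn
    simp at hw1
  have hdep : ¬ LinearIndependent ℤ (fun i => V (x i)) := by
    rw [← linearIndependent_algebraMap_comp_iff (S := ℝ), Fintype.not_linearIndependent_iff]
    refine ⟨w, ?_, hne.some, (hw _).ne'⟩
    rw [← hw0]
    refine Finset.sum_congr rfl fun i _ => ?_
    rw [← hx i]; rfl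
  obtain ⟨g, hg, i0, hi0⟩ := Fintype.not_linearIndependent_iff.1 hdep
  have hgR : ∑ i, (g i : ℝ) • z i = 0 := by
    funext θ
    have := congrFun hg θ
    simp only [Finset.sum_apply, Pi.smul_apply, smul_eq_mul, Pi.zero_apply] at this ⊢
    have h2 : ∀ i, z i θ = (V (x i) θ : ℝ) := fun i => by rw [← hx i]
    simp only [h2]
    exact_mod_cast this
  set σ : ℝ := ∑ i, (g i : ℝ) with hσ
  have hkey : ∀ i, (g i : ℝ) = σ * w i := by
    intro i
    have := haff.eq_zero_of_sum_eq_zero (s := Finset.univ) (w := fun i => (g i : ℝ) - σ * w i)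
      (by rw [Finset.sum_sub_distrib, ← Finset.mul_sum, hw1, mul_one, sub_self])
      (by
        simp only [sub_smul, mul_smul]
        rw [Finset.sum_sub_distrib, ← Finset.smul_sum, hw0, hgR]; simp) i (Finset.mem_univ i)
    linarith
  have hσ0 : σ ≠ 0 := by
    intro h
    apply hi0
    have := hkey i0
    rw [h, zero_mul] at this
    exact_mod_cast this
  refine ⟨Σ i : ι, Fin (g i).natAbs, inferInstance, ⟨⟨i0, ⟨0, Int.natAbs_pos.2 hi0⟩⟩⟩,
    fun j => x j.1, ?_⟩
  rw [Fintype.sum_sigma]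
  simp only [Finset.sum_const, Finset.card_univ, Fintype.card_fin]
  rcases lt_or_gt_of_ne hσ0 with h | h
  · have h3 : ∀ i, (g i).natAbs • V (x i) = - (g i • V (x i)) := by
      intro i
      have : (g i : ℝ) < 0 := by rw [hkey i]; exact mul_neg_of_neg_of_pos h (hw i)
      have h4 : g i < 0 := by exact_mod_cast this
      rw [← neg_smul, ← natCast_zsmul]
      congr 1
      omega
    simp only [h3]
    rw [Finset.sum_neg_distrib, hg, neg_zero]
  · have h3 : ∀ i, (g i).natAbs • V (x i) = (g i • V (x i)) := by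
      intro i
      have : 0 < (g i : ℝ) := by rw [hkey i]; exact mul_pos h (hw i)
      have h4 : 0 < g i := by exact_mod_cast this
      rw [← natCast_zsmul]
      congr 1
      omega
    simp only [h3]
    exact hg

theorem balance {H Θ : Type} [Group H] [Finite Θ] (κ : H → Θ) (B : Subgroup H) [Finite B] (t : H)
    (hK : ∀ L : ℕ, ∃ K : Subgroup H, Finite K ∧ ∀ n : ℕ, n ≤ L → ∀ b ∈ B,
      t ^ n * b * (t ^ n)⁻¹ ∈ K) :
    ∃ (J : Type) (_ : Finite J) (_ : Nonempty J) (hh : J → H) (e : J × B ≃ J × B),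
      ∀ ω, κ (hh (e ω).1 * (e ω).2 * t⁻¹) = κ (hh ω.1 * ω.2) := by
  classical
  have := Fintype.ofFinite Θ
  have := Fintype.ofFinite B
  let V : H → Θ → ℤ := fun h θ =>
    ∑ b : B, ((if κ (h * b) = θ then 1 else 0) - (if κ (h * b * t⁻¹) = θ then 1 else 0))
  obtain ⟨J, _, hJ, hh, hsum⟩ := intcomb V (Fintype.card B) (by
      intro h θ
      refine (Finset.abs_sum_le_sum_abs _ _).trans ?_
      rw [← Finset.card_univ, Finset.card_eq_sum_ones]
      push_cast
      refine Finset.sum_le_sum fun b _ => ?_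
      split_ifs <;> simp) (by
      intro f u hu hall
      let U : H → ℝ := fun g => f (Pi.single (κ g) 1)
      obtain ⟨M, hM⟩ : ∃ M : ℝ, ∀ g, |U g| ≤ M := by
        refine ⟨∑ θ, |f (Pi.single θ 1)|, fun g => ?_⟩
        exact Finset.single_le_sum (f := fun θ => |f (Pi.single θ 1)|) (fun _ _ => abs_nonneg _)
          (Finset.mem_univ (κ g))
      have hV : ∀ h, f (fun θ => (V h θ : ℝ)) = ∑ b : B, (U (h * b) - U (h * b * t⁻¹)) := by
        intro h
        simp only [U, ← map_sub, ← map_sum]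
        congr 1
        funext θ
        simp only [V, Finset.sum_apply, Pi.sub_apply, Pi.single_apply]
        push_cast
        refine Finset.sum_congr rfl fun b _ => ?_
        simp only [eq_comm (a := θ)]
      obtain ⟨L, hL⟩ := exists_nat_gt (2 * M * Fintype.card B / u)
      obtain ⟨K, hKf, hKm⟩ := hK L
      have := Fintype.ofFinite K
      let D : ℕ → ℝ := fun n => ∑ k : K, U (k * t ^ n)
      have hD : ∀ n, |D n| ≤ M * Fintype.card K := by
        intro n
        refine (Finset.abs_sum_le_sum_abs _ _).trans ?_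
        refine (Finset.sum_le_sum fun k _ => hM _).trans ?_
        simp [mul_comm]
      have hstep : ∀ n, n < L → u * Fintype.card K ≤ Fintype.card B * (D (n + 1) - D n) := by
        intro n hn
        have h1 : ∑ k : K, f (fun θ => (V (k * t ^ (n + 1)) θ : ℝ))
            = Fintype.card B * (D (n + 1) - D n) := by
          simp only [hV]
          rw [Finset.sum_comm]
          have h2 : ∀ b : B, ∑ k : K, (U (k * t ^ (n + 1) * b) - U (k * t ^ (n + 1) * b * t⁻¹))
              = D (n + 1) - D n := by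
            intro b
            rw [Finset.sum_sub_distrib]
            let c : K := ⟨_, hKm (n + 1) hn b b.2⟩
            congr 1
            · refine Fintype.sum_equiv (Equiv.mulRight c) _ _ fun k => ?_
              simp [c, mul_assoc]
            · refine Fintype.sum_equiv (Equiv.mulRight c) _ _ fun k => ?_
              simp [c, mul_assoc, pow_succ]
          simp only [h2]
          simp [mul_sub]
        rw [← h1]
        refine le_trans ?_ (Finset.sum_le_sum fun k _ => (hall _).le)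
        simp [mul_comm]
      have htot : L * (u * Fintype.card K) ≤ Fintype.card B * (D L - D 0) := by
        rw [← Finset.sum_range_sub, Finset.mul_sum]
        refine le_trans ?_ (Finset.sum_le_sum fun n hn => hstep n (Finset.mem_range.1 hn))
        simp
      have hKpos : (0 : ℝ) < Fintype.card K := by exact_mod_cast Fintype.card_pos
      have hB0 : (0 : ℝ) ≤ Fintype.card B := by positivity
      have h5 : D L - D 0 ≤ 2 * M * Fintype.card K := by
        have := abs_le.1 (hD L); have := abs_le.1 (hD 0); linarith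
      have h6 : L * u * Fintype.card K ≤ 2 * M * Fintype.card B * Fintype.card K := by
        have := mul_le_mul_of_nonneg_left h5 hB0
        nlinarith
      have h7 := le_of_mul_le_mul_right h6 hKpos
      rw [div_lt_iff₀ hu] at hL
      linarith)
  have hcard : ∀ θ, Fintype.card {ω : J × B // κ (hh ω.1 * ω.2) = θ}
      = Fintype.card {ω : J × B // κ (hh ω.1 * ω.2 * t⁻¹) = θ} := by
    intro θ
    have h1 := congrFun hsum θ
    simp only [Finset.sum_apply, V, Pi.zero_apply, Finset.sum_sub_distrib, sub_eq_zero] at h1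
    rw [← Fintype.sum_prod_type', ← Fintype.sum_prod_type'] at h1
    rw [Fintype.card_subtype, Fintype.card_subtype, Finset.card_filter, Finset.card_filter]
    exact_mod_cast h1
  refine ⟨J, inferInstance, hJ, hh, Equiv.ofFiberEquiv (fun θ => Fintype.equivOfCardEq (hcard θ)),
    fun ω => ?_⟩
  exact Equiv.ofFiberEquiv_map (f := fun ω : J × B => κ (hh ω.1 * ω.2))
    (g := fun ω : J × B => κ (hh ω.1 * ω.2 * t⁻¹)) _ ω

theorem matching {X Γ Θ : Type} [Finite X] [Group Γ] (ρ σ : X → Γ → X)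
    (hρ : ∀ ω β β', ρ (ρ ω β) β' = ρ ω (β * β')) (hρ1 : ∀ ω, ρ ω 1 = ω)
    (hσ : ∀ ω β β', σ (σ ω β) β' = σ ω (β * β')) (hσ1 : ∀ ω, σ ω 1 = ω)
    (y z : X → Γ) (hy : ∀ ω β, y (ρ ω β) = y ω * β) (hz : ∀ ω β, z (σ ω β) = z ω * β)
    (k l : X → Θ) (hk : ∀ ω β, k (ρ ω β) = k ω) (hl : ∀ ω β, l (σ ω β) = l ω)
    (e0 : X ≃ X) (he : ∀ ω, z (e0 ω) = y ω ∧ l (e0 ω) = k ω) :
    ∃ e : Equiv.Perm X, (∀ ω β, e (ρ ω β) = σ (e ω) β) ∧ ∀ ω, z (e ω) = y ω ∧ l (e ω) = k ω := by
  let f : X → X := fun ω => σ (e0 (ρ ω (y ω)⁻¹)) (y ω)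
  have hzf : ∀ ω, z (f ω) = y ω := fun ω => by
    simp only [f, hz, (he _).1, hy]; simp
  have hinj : Function.Injective f := by
    intro ω ω' h
    have h1 : y ω = y ω' := by rw [← hzf, h, hzf]
    have h2 := congrArg (fun v => σ v (y ω)⁻¹) h
    simp only [f, hσ, ← h1, mul_inv_cancel, hσ1] at h2
    have h3 := congrArg (fun v => ρ v (y ω)) (e0.injective h2)
    simpa only [hρ, inv_mul_cancel, hρ1] using h3
  refine ⟨Equiv.ofBijective f (Finite.injective_iff_bijective.1 hinj), fun ω β => ?_,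
    fun ω => ⟨hzf ω, ?_⟩⟩
  · show f (ρ ω β) = σ (f ω) β
    simp only [f, hσ, hρ, hy]
    simp
  · show l (f ω) = k ω
    simp only [f, hl, (he _).2, hk]

end Pool.Agent.H.MP_018f72_lc
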