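import Pool.Agent.H.MP_018f72_lc.A

set_option autoImplicit false
set_option maxHeartbeats 400000

namespace Pool.Agent.H.MP_018f72_lc

section grp
variable {G : Type} [Group G]

def ai (a t : G) (i : ℤ) : G := t ^ i * a * (t ^ i)⁻¹

def Bs (a t : G) (p q : ℤ) : Subgroup G :=
  Subgroup.closure {g | ∃ i, p ≤ i ∧ i ≤ q ∧ g = ai a t i}

theorem ai_mem (a t : G) {p q i : ℤ} (h1 : p ≤ i) (h2 : i ≤ q) : ai a t i ∈ Bs a t p q :=
  Subgroup.subset_closure ⟨i, h1, h2, rfl⟩

theorem ai_conj (a t : G) (n i : ℤ) : t ^ n * ai a t i * (t ^ n)⁻¹ = ai a t (i + n) := by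
  simp only [ai]; group

theorem Bs_conj (a t : G) {p q p' q' : ℤ} (n : ℤ) (h1 : p' ≤ p + n) (h2 : q + n ≤ q') {b : G}
    (hb : b ∈ Bs a t p q) : t ^ n * b * (t ^ n)⁻¹ ∈ Bs a t p' q' := by
  induction hb using Subgroup.closure_induction with
  | mem g hg =>
    obtain ⟨i, h3, h4, rfl⟩ := hg
    rw [ai_conj]
    exact ai_mem a t (by omega) (by omega)
  | one => simp
  | mul g h _ _ h3 h4 =>
    have := mul_mem h3 h4
    simpa [mul_assoc] using this
  | inv g _ h3 =>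
    have := inv_mem h3
    simpa [mul_assoc] using this

theorem Bs_mono (a t : G) {p q p' q' : ℤ} (h1 : p' ≤ p) (h2 : q ≤ q') :
    Bs a t p q ≤ Bs a t p' q' := fun b hb => by
  simpa using Bs_conj a t 0 (by omega) (by omega) hb

theorem map_ai {H : Type} [Group H] (π : G →* H) (a t : G) (i : ℤ) :
    π (ai a t i) = ai (π a) (π t) i := by simp [ai]

theorem Bs_map {H : Type} [Group H] (π : G →* H) (a t : G) (p q : ℤ) :
    (Bs a t p q).map π = Bs (π a) (π t) p q := by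
  rw [Bs, MonoidHom.map_closure, Bs]
  congr 1
  ext h
  constructor
  · rintro ⟨_, ⟨i, h1, h2, rfl⟩, rfl⟩
    exact ⟨i, h1, h2, map_ai π a t i⟩
  · rintro ⟨i, h1, h2, rfl⟩
    exact ⟨_, ⟨i, h1, h2, rfl⟩, map_ai π a t i⟩

end grp

abbrev F := FreeGroup (Fin 2)

def fa : F := FreeGroup.of 0
def ft : F := FreeGroup.of 1

theorem decomp (w : F) :
    ∃ r : ℕ, ∃ γ ∈ Bs fa ft (-r) r, ∃ n : ℤ, |n| ≤ r ∧ w = γ * ft ^ n := by
  induction w using FreeGroup.induction_on with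
  | C1 => exact ⟨0, 1, one_mem _, 0, by simp, by simp⟩
  | of x =>
    fin_cases x
    · refine ⟨0, ai fa ft 0, ai_mem _ _ (by simp) (by simp), 0, by simp, ?_⟩
      simp [ai, fa]
    · exact ⟨1, 1, one_mem _, 1, by simp, by simp [ft]⟩
  | inv_of x h =>
    obtain ⟨r, γ, h1, n, h2, h3⟩ := h
    have h4 := abs_le.1 h2
    refine ⟨r + r, _, Bs_conj fa ft (-n) (by push_cast; omega) (by push_cast; omega) (inv_mem h1),
      -n, by rw [abs_neg]; push_cast; omega, ?_⟩
    rw [h3]; group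
  | mul u v hu hv =>
    obtain ⟨r, γ, h1, n, h2, h3⟩ := hu
    obtain ⟨r', γ', h1', n', h2', h3'⟩ := hv
    have h4 := abs_le.1 h2
    have h4' := abs_le.1 h2'
    refine ⟨r + r', _, mul_mem (Bs_mono fa ft (by push_cast; omega) (by push_cast; omega) h1)
      (Bs_conj fa ft n (by push_cast; omega) (by push_cast; omega) h1'), n + n',
      by rw [abs_le]; push_cast; omega, ?_⟩
    rw [h3, h3']; group

theorem decompS (S : Finset F) :
    ∃ r : ℕ, ∀ w ∈ S, ∃ γ ∈ Bs fa ft (-r) r, ∃ n : ℤ, |n| ≤ r ∧ w = γ * ft ^ n := by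
  choose R hR using decomp
  refine ⟨S.sup R, fun w hw => ?_⟩
  obtain ⟨γ, h1, n, h2, h3⟩ := hR w
  have : R w ≤ S.sup R := Finset.le_sup hw
  exact ⟨γ, Bs_mono fa ft (by omega) (by omega) h1, n, by omega, h3⟩

noncomputable def rp {H : Type} [Group H] (K : Subgroup H) (g : H) : H :=
  Quotient.out (g : H ⧸ K)

theorem rp_mem {H : Type} [Group H] (K : Subgroup H) (g : H) : (rp K g)⁻¹ * g ∈ K :=
  QuotientGroup.eq.1 (QuotientGroup.out_eq' (g : H ⧸ K))

theorem rp_mul {H : Type} [Group H] (K : Subgroup H) (g : H) (β : K) : rp K (g * β) = rp K g := by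
  simp only [rp]
  rw [QuotientGroup.mk_mul_of_mem g β.2]

def rmul {J B : Type} [Group B] : B →* Equiv.Perm (J × B) where
  toFun b := Equiv.prodCongr (Equiv.refl J) (Equiv.mulRight b⁻¹)
  map_one' := by ext ω <;> simp
  map_mul' b c := by ext ω <;> simp [mul_assoc]

theorem rmul_apply {J B : Type} [Group B] (b : B) (ω : J × B) :
    rmul b ω = (ω.1, ω.2 * b⁻¹) := rfl

theorem star {H C : Type} [Group H] [Finite C] (π : F →* H)
    (hfin : ∀ r : ℕ, Finite (Bs (π fa) (π ft) (-r) r))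
    (ht : ∀ r : ℕ, ∀ γ ∈ Bs (π fa) (π ft) (-r) r, ∀ n : ℤ, γ * π ft ^ n = 1 → n = 0)
    (x : H → C) (S : Finset F) :
    ∃ (Ω : Type) (_ : Finite Ω) (_ : Nonempty Ω) (φ : F →* Equiv.Perm Ω) (col : Ω → C),
      (∀ w ∈ S, π w = 1 → φ w = 1) ∧ ∀ ω, ∃ g, ∀ q ∈ S, col ((φ q)⁻¹ ω) = x (g * π q) := by
  classical
  obtain ⟨r, hr⟩ := decompS S
  set a := π fa with ha
  set t := π ft with htd
  let B := Bs a t (-r) r
  let B1 := Bs a t (-r + 1) r
  have hB1 : B1 ≤ B := Bs_mono a t (by omega) le_rfl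
  have hB2 : ∀ β ∈ B1, t⁻¹ * β * t ∈ B := fun β hβ => by
    simpa using Bs_conj a t (-1) (p' := -r) (q' := r) (by omega) (by omega) hβ
  have : Finite B := hfin r
  have : Finite B1 := Finite.of_injective _ (Subgroup.inclusion_injective hB1)
  let y : H → B1 := fun g => ⟨_, rp_mem B1 g⟩
  let k : H → (B1 × Set.Icc (-(r : ℤ) - 1) (r + 1) → C) := fun g p => x (rp B1 g * p.1 * t ^ p.2.1)
  have hy : ∀ g (β : B1), y (g * β) = y g * β := fun g β => by
    ext; simp [y, rp_mul, mul_assoc]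
  have hk : ∀ g (β : B1), k (g * β) = k g := fun g β => by
    simp only [k, rp_mul]
  obtain ⟨J, _, hJ, hh, e0, he0⟩ := balance (fun g => (y g, k g)) B t (fun L =>
    ⟨Bs a t (-((r + L : ℕ) : ℤ)) ((r + L : ℕ) : ℤ), hfin _, fun n hn b hb => by
      have := Bs_conj a t n (p' := -((r + L : ℕ) : ℤ)) (q' := ((r + L : ℕ) : ℤ))
        (by push_cast; omega) (by push_cast; omega) hb
      simpa using this⟩)
  let pos : J × B → H := fun ω => hh ω.1 * ω.2
  obtain ⟨e, he1, he2⟩ := matching (X := J × B) (Γ := B1)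
    (fun ω β => (ω.1, ω.2 * ⟨β, hB1 β.2⟩)) (fun ω β => (ω.1, ω.2 * ⟨_, hB2 β β.2⟩))
    (fun ω β β' => by ext <;> simp [mul_assoc]) (fun ω => by ext <;> simp)
    (fun ω β β' => by ext <;> simp [mul_assoc]) (fun ω => by ext <;> simp)
    (fun ω => y (pos ω)) (fun ω => y (pos ω * t⁻¹))
    (fun ω β => by rw [← hy]; simp [pos, mul_assoc])
    (fun ω β => by rw [← hy]; simp [pos, mul_assoc])
    (fun ω => k (pos ω)) (fun ω => k (pos ω * t⁻¹))
    (fun ω β => by rw [← hk (pos ω) β]; simp [pos, mul_assoc])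
    (fun ω β => by rw [← hk (pos ω * t⁻¹) β]; simp [pos, mul_assoc])
    e0 (fun ω => Prod.ext_iff.1 (he0 ω))
  have haB : a ∈ B := by simpa [ai] using ai_mem a t (p := -r) (q := r) (i := 0) (by omega) (by omega)
  let φ : F →* Equiv.Perm (J × B) := FreeGroup.lift ![rmul ⟨a, haB⟩, e⁻¹]
  have hφa : φ fa = rmul ⟨a, haB⟩ := by simp [φ, fa]
  have hφt : φ ft = e⁻¹ := by simp [φ, ft]
  have hconj : ∀ β (hβ : β ∈ B1), e * rmul ⟨β, hB1 hβ⟩ = rmul ⟨_, hB2 β hβ⟩ * e := by
    intro β hβ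
    ext1 ω
    have := he1 ω ⟨β, hβ⟩⁻¹
    simp only [Equiv.Perm.mul_apply, rmul_apply]
    refine Eq.trans ?_ (this.trans ?_)
    · rfl
    · ext <;> simp [mul_assoc]
  have hdown : ∀ i : ℤ, t⁻¹ * ai a t i * t = ai a t (i - 1) := fun i => by
    simpa [sub_eq_add_neg] using ai_conj a t (-1) i
  have hai : ∀ (i : ℤ) (h1 : -(r : ℤ) ≤ i) (h2 : i ≤ r),
      φ (ai fa ft i) = rmul ⟨ai a t i, ai_mem a t h1 h2⟩ := by
    intro i
    induction i using Int.induction_on with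
    | zero => intro h1 h2; simp [ai, hφa]
    | succ i ih =>
      intro h1 h2
      have h3 := hconj _ (ai_mem a t (p := -r + 1) (q := r) (i := i + 1) (by omega) h2)
      simp only [hdown, add_sub_cancel_right] at h3
      rw [← ai_conj fa ft 1 i, map_mul, map_mul, ih (by omega) (by omega), map_inv, zpow_one, hφt,
        mul_assoc, inv_inv, ← h3]
      simp
    | pred i ih =>
      intro h1 h2
      have h3 := hconj _ (ai_mem a t (p := -r + 1) (q := r) (i := -i) (by omega) (by omega))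
      simp only [hdown] at h3
      have h4 : ai fa ft (-i - 1) = ft ^ (-1 : ℤ) * ai fa ft (-i) * (ft ^ (-1 : ℤ))⁻¹ :=
        (ai_conj fa ft (-1) (-i)).symm
      rw [h4, map_mul, map_mul, ih (by omega) (by omega),
        map_inv, zpow_neg_one, map_inv, hφt, inv_inv, h3]
      simp
  have hγ : ∀ γ ∈ Bs fa ft (-r) r, ∃ h : π γ ∈ B, φ γ = rmul ⟨π γ, h⟩ := by
    intro γ hγ
    induction hγ using Subgroup.closure_induction with
    | mem g hg =>
      obtain ⟨i, h3, h4, rfl⟩ := hg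
      refine ⟨by rw [map_ai]; exact ai_mem a t h3 h4, ?_⟩
      rw [hai i h3 h4]
      simp only [map_ai]; rfl
    | one => exact ⟨by simp, by rw [map_one, ← map_one rmul]; congr 1; ext; simp⟩
    | mul g h _ _ h3 h4 =>
      obtain ⟨h3, h5⟩ := h3
      obtain ⟨h4, h6⟩ := h4
      exact ⟨by rw [map_mul]; exact mul_mem h3 h4, by
        rw [map_mul, h5, h6, ← map_mul]; congr 1; ext; simp⟩
    | inv g _ h3 =>
      obtain ⟨h3, h5⟩ := h3
      exact ⟨by rw [map_inv]; exact inv_mem h3, by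
        rw [map_inv, h5, ← map_inv]; congr 1; ext; simp⟩
  have hx1 : ∀ (m : ℤ), |m| ≤ r + 1 → ∀ ω, x (pos (e ω) * t ^ (m - 1)) = x (pos ω * t ^ m) := by
    intro m hm ω
    have hm' := abs_le.1 hm
    have h1 := congrFun (he2 ω).2 (y (pos ω), ⟨m, by constructor <;> omega⟩)
    have h2 : (rp B1 (pos (e ω) * t⁻¹))⁻¹ * (pos (e ω) * t⁻¹) = (rp B1 (pos ω))⁻¹ * pos ω :=
      congrArg Subtype.val (he2 ω).1
    simp only [k, y] at h1
    rw [mul_inv_cancel_left, ← h2, mul_inv_cancel_left] at h1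
    rw [← h1]
    congr 1
    group
  have hx2 : ∀ (n m : ℤ), |n| + |m| ≤ r → ∀ ω,
      x (pos ((e ^ n) ω) * t ^ m) = x (pos ω * t ^ (n + m)) := by
    intro n
    induction n using Int.induction_on with
    | zero => intro m _ ω; simp
    | succ i ih =>
      intro m hm ω
      have h1 : |(i : ℤ)| + |m + 1| ≤ r := by
        have := abs_add_le m 1
        rw [abs_of_nonneg (by omega : (0 : ℤ) ≤ i + 1)] at hm
        rw [abs_of_nonneg (by omega : (0 : ℤ) ≤ i)]
        simp at this; omega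
      have h2 := hx1 (m + 1) (by have := abs_nonneg (i : ℤ); omega) ((e ^ (i : ℤ)) ω)
      rw [ih _ h1, add_sub_cancel_right] at h2
      rw [add_comm (i : ℤ) 1, zpow_add, zpow_one, Equiv.Perm.mul_apply, h2]
      congr 3; ring
    | pred i ih =>
      intro m hm ω
      have h1 : |(-i : ℤ)| + |m - 1| ≤ r := by
        have := abs_sub m 1
        rw [abs_of_nonpos (by omega : (-i - 1 : ℤ) ≤ 0)] at hm
        rw [abs_of_nonpos (by omega : (-i : ℤ) ≤ 0)]
        simp at this; omega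
      have h2 := hx1 m (by have := abs_nonneg (-i - 1 : ℤ); omega) ((e ^ (-i - 1 : ℤ)) ω)
      rw [← h2, ← Equiv.Perm.mul_apply, ← zpow_one_add, show (1 + (-i - 1) : ℤ) = -i by ring,
        ih _ h1]
      congr 3; ring
  refine ⟨J × B, inferInstance, inferInstance, φ, fun ω => x (pos ω), fun w hw h1 => ?_,
    fun ω => ⟨pos ω, fun q hq => ?_⟩⟩
  · obtain ⟨γ, h2, n, h3, rfl⟩ := hr w hw
    obtain ⟨h4, h5⟩ := hγ γ h2
    rw [map_mul, map_zpow] at h1
    have h6 := ht r _ h4 n h1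
    subst h6
    simp only [zpow_zero, mul_one] at h1 ⊢
    rw [h5, ← map_one rmul]; congr 1; ext; simp [h1]
  · obtain ⟨γ, h2, n, h3, rfl⟩ := hr q hq
    obtain ⟨h4, h5⟩ := hγ γ h2
    have h6 := hx2 n 0 (by simpa using h3) ((φ γ)⁻¹ ω)
    simp only [zpow_zero, mul_one, add_zero] at h6
    rw [map_mul, map_zpow, hφt, mul_inv_rev, inv_zpow, inv_inv, Equiv.Perm.mul_apply]
    refine h6.trans ?_
    rw [h5, ← map_inv, rmul_apply, map_mul, map_zpow]
    simp [pos, mul_assoc, htd]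

end Pool.Agent.H.MP_018f72_lc
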