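import Mathlib

set_option autoImplicit false
set_option maxHeartbeats 400000

namespace Pool.Agent.H.MP_018f72_lc

open Encodable

abbrev X := Fin 2 × Bool
abbrev W := List X
abbrev Tb := ℕ × List ℕ
abbrev Ins := ℕ × List (List (W × ℕ))
abbrev St := List Tb × ℕ
abbrev Out := Tb × List ℕ × ℕ × ℕ

def wd (n : ℕ) : W := (decode n).getD []
def ins (n : ℕ) : Ins := (decode n).getD (0, [])
def st (T : List ℕ) (i : ℕ) (x : X) : ℕ := T.getD (Nat.pair i (encode x)) 0
def ev (T : List ℕ) (i : ℕ) (w : W) : ℕ := w.foldl (st T) i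
def allX : List X := [(0, true), (0, false), (1, true), (1, false)]
def bar (x : X) : X := (x.1, !x.2)
def Valid (p : Tb) : Prop :=
  ∀ i < p.1, ∀ x ∈ allX, st p.2 i x < p.1 ∧ st p.2 (st p.2 i x) (bar x) = i
def eqT (p : Tb) (u v : W) : Prop := ∀ i < p.1, ev p.2 i u = ev p.2 i v
def stL (s : ℕ × ℕ) (x : X) : ℕ × ℕ :=
  if x = (1, true) then (s.1 + 1, s.2) else if x = (1, false) then (s.1, s.2 + 1) else
    if s.1 = s.2 then (s.1 + 1, s.2) else if s.1 = s.2 + 1 then (s.1, s.2 + 1) else s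
def evL (s : ℕ × ℕ) (w : W) : ℕ × ℕ := w.foldl stL s
def bd (u v : W) : ℕ := u.length + v.length + 2
def eqL (u v : W) : Prop := ∀ i < bd u v + bd u v + 1,
  (evL (i, bd u v) u).1 + (evL (i, bd u v) v).2 = (evL (i, bd u v) v).1 + (evL (i, bd u v) u).2
def eqH (T : List Tb) (u v : W) : Prop := eqL u v ∧ ∀ p ∈ T, eqT p u v
def cw (k : ℕ) : W := Nat.rec [(0, true)] (fun _ w => (1, true) :: (w ++ [(1, false)])) k
def pw (w : W) (N : ℕ) : W := Nat.rec w (fun _ u => u ++ w) N
def dg (c M n : ℕ) : ℕ := M / c ^ n % c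
def Col (p : Tb) (cl : List ℕ) (I : Ins) : Prop :=
  (∀ i < p.1, cl.getD i 0 < I.1) ∧ ∀ i < p.1, ∀ P ∈ I.2, ¬ ∀ q ∈ P, cl.getD (ev p.2 i q.1) 0 = q.2
def Cons (T : List Tb) (c M r : ℕ) : Prop :=
  ∀ n < r, ∀ n' < r, eqH T (wd n) (wd n') → dg c M n = dg c M n'
def Avoid (I : Ins) (M r : ℕ) : Prop :=
  ∀ n < r, ∀ P ∈ I.2, ¬ ∀ q ∈ P, encode (wd n ++ q.1) < r ∧ dg I.1 M (encode (wd n ++ q.1)) = q.2
def NoCol (T : List Tb) (I : Ins) (r : ℕ) : Prop :=
  ∀ M < I.1 ^ r, ¬ (Cons T I.1 M r ∧ Avoid I M r)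
def Agree (s : St) (p : Tb) : Prop :=
  ∀ n < s.2, ∀ n' < s.2, eqH s.1 (wd n) (wd n') → eqT p (wd n) (wd n')
def tw (k N : ℕ) : W := pw ((0, false) :: cw k) N
def Next (k : ℕ) (s : St) (o : Out) : Prop :=
  (Valid o.1 ∧ Agree s o.1) ∧ (s.2 ≤ o.2.2.1 ∧ encode (tw k o.2.2.2) < o.2.2.1 ∧
    encode ([] : W) < o.2.2.1 ∧ eqH (o.1 :: s.1) (tw k o.2.2.2) []) ∧
    ((0 < o.1.1 ∧ Col o.1 o.2.1 (ins k)) ∨ (o.1.1 = 0 ∧ NoCol (o.1 :: s.1) (ins k) o.2.2.1))
def Next' (k : ℕ) (s : St) (o : Out) : Prop := (∀ p ∈ s.1, Valid p) → Next k s o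

open Primrec

section gen
variable {α β : Type} [Primcodable α] [Primcodable β]

theorem allL {l : α → List β} {R : α → β → Prop} (hl : Primrec l)
    (hR : PrimrecPred fun p : α × β => R p.1 p.2) : PrimrecPred fun a => ∀ b ∈ l a, R a b :=
  (PrimrecRel.forall_mem_list (R := fun b a => R a b) (hR.comp (pair snd fst))).comp hl
    Primrec.id

theorem allN {n : α → ℕ} {R : α → ℕ → Prop} (hn : Primrec n)
    (hR : PrimrecPred fun p : α × ℕ => R p.1 p.2) : PrimrecPred fun a => ∀ i < n a, R a i :=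
  (allL (list_range.comp hn) hR).of_eq (by simp)

theorem impP {p q : α → Prop} (hp : PrimrecPred p) (hq : PrimrecPred q) :
    PrimrecPred fun a => p a → q a :=
  (hp.not.or hq).of_eq fun _ => imp_iff_not_or.symm

theorem p_wd {f : α → ℕ} (hf : Primrec f) : Primrec fun a => wd (f a) :=
  option_getD.comp (Primrec.decode.comp hf) (const _)

theorem p_ins {f : α → ℕ} (hf : Primrec f) : Primrec fun a => ins (f a) :=
  option_getD.comp (Primrec.decode.comp hf) (const _)

theorem p_st {T : α → List ℕ} {i : α → ℕ} {x : α → X} (hT : Primrec T) (hi : Primrec i)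
    (hx : Primrec x) : Primrec fun a => st (T a) (i a) (x a) :=
  (list_getD 0).comp hT (Primrec₂.natPair.comp hi (Primrec.encode.comp hx))

theorem p_ev {T : α → List ℕ} {i : α → ℕ} {w : α → W} (hT : Primrec T) (hi : Primrec i)
    (hw : Primrec w) : Primrec fun a => ev (T a) (i a) (w a) :=
  list_foldl (h := fun a p => st (T a) p.1 p.2) hw hi
    (p_st (hT.comp fst) (fst.comp snd) (snd.comp snd)).to₂

theorem p_valid0 : PrimrecPred Valid :=
  allN fst (allL (const _) (PrimrecPred.and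
    (nat_lt.comp (p_st (snd.comp (fst.comp fst)) (snd.comp fst) snd) (fst.comp (fst.comp fst)))
    (Primrec.eq.comp (p_st (snd.comp (fst.comp fst))
      (p_st (snd.comp (fst.comp fst)) (snd.comp fst) snd) ((dom_finite bar).comp snd))
      (snd.comp fst))))

theorem p_eqT {p : α → Tb} {u v : α → W} (hp : Primrec p) (hu : Primrec u) (hv : Primrec v) :
    PrimrecPred fun a => eqT (p a) (u a) (v a) :=
  allN (fst.comp hp) (Primrec.eq.comp (p_ev (snd.comp (hp.comp fst)) snd (hu.comp fst))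
    (p_ev (snd.comp (hp.comp fst)) snd (hv.comp fst)))

theorem p_stL0 : Primrec fun p : (ℕ × ℕ) × X => stL p.1 p.2 := by
  have h1 : Primrec fun p : (ℕ × ℕ) × X => (p.1.1 + 1, p.1.2) :=
    pair (succ.comp (fst.comp fst)) (snd.comp fst)
  have h2 : Primrec fun p : (ℕ × ℕ) × X => (p.1.1, p.1.2 + 1) :=
    pair (fst.comp fst) (succ.comp (snd.comp fst))
  exact Primrec.ite (Primrec.eq.comp snd (const _)) h1 (Primrec.ite (Primrec.eq.comp snd (const _))
    h2 (Primrec.ite (Primrec.eq.comp (fst.comp fst) (snd.comp fst)) h1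
      (Primrec.ite (Primrec.eq.comp (fst.comp fst) (succ.comp (snd.comp fst))) h2 fst)))

theorem p_evL {s : α → ℕ × ℕ} {w : α → W} (hs : Primrec s) (hw : Primrec w) :
    Primrec fun a => evL (s a) (w a) :=
  list_foldl (h := fun _ p => stL p.1 p.2) hw hs (p_stL0.comp snd).to₂

theorem p_eqL0 : PrimrecPred fun p : W × W => eqL p.1 p.2 := by
  have hb : Primrec fun p : W × W => bd p.1 p.2 :=
    nat_add.comp (nat_add.comp (list_length.comp fst) (list_length.comp snd)) (const 2)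
  have hu : Primrec fun q : (W × W) × ℕ => evL (q.2, bd q.1.1 q.1.2) q.1.1 :=
    p_evL (pair snd (hb.comp fst)) (fst.comp fst)
  have hv : Primrec fun q : (W × W) × ℕ => evL (q.2, bd q.1.1 q.1.2) q.1.2 :=
    p_evL (pair snd (hb.comp fst)) (snd.comp fst)
  exact allN (succ.comp (nat_add.comp hb hb)) (Primrec.eq.comp
    (nat_add.comp (fst.comp hu) (snd.comp hv)) (nat_add.comp (fst.comp hv) (snd.comp hu)))

theorem p_eqH {T : α → List Tb} {u v : α → W} (hT : Primrec T) (hu : Primrec u) (hv : Primrec v) :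
    PrimrecPred fun a => eqH (T a) (u a) (v a) :=
  (p_eqL0.comp (pair hu hv)).and (allL hT (p_eqT snd (hu.comp fst) (hv.comp fst)))

theorem p_cw : Primrec cw :=
  nat_rec₁ _ (list_cons.comp (const _) (list_append.comp snd (const _))).to₂

theorem p_tw {k N : α → ℕ} (hk : Primrec k) (hN : Primrec N) : Primrec fun a => tw (k a) (N a) := by
  have h : Primrec fun a => ((0, false) :: cw (k a) : W) :=
    list_cons.comp (const _) (p_cw.comp hk)
  exact nat_rec' (h := fun a p => p.2 ++ ((0, false) :: cw (k a))) hN h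
    (list_append.comp (snd.comp snd) (h.comp fst)).to₂

theorem p_pow : Primrec₂ (fun a b : ℕ => a ^ b) := Primrec₂.unpaired'.1 Nat.Primrec.pow

theorem p_dg {c M n : α → ℕ} (hc : Primrec c) (hM : Primrec M) (hn : Primrec n) :
    Primrec fun a => dg (c a) (M a) (n a) :=
  nat_mod.comp (nat_div.comp hM (p_pow.comp hc hn)) hc

theorem p_col {p : α → Tb} {cl : α → List ℕ} {I : α → Ins} (hp : Primrec p) (hc : Primrec cl)
    (hI : Primrec I) : PrimrecPred fun a => Col (p a) (cl a) (I a) :=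
  (allN (fst.comp hp) (nat_lt.comp ((list_getD 0).comp (hc.comp fst) snd)
    (fst.comp (hI.comp fst)))).and
    (allN (fst.comp hp) (allL (snd.comp (hI.comp fst)) (PrimrecPred.not (allL snd
      (Primrec.eq.comp ((list_getD 0).comp (hc.comp (fst.comp (fst.comp fst)))
        (p_ev (snd.comp (hp.comp (fst.comp (fst.comp fst)))) (snd.comp (fst.comp fst))
          (fst.comp snd))) (snd.comp snd))))))

theorem p_cons {T : α → List Tb} {c M r : α → ℕ} (hT : Primrec T) (hc : Primrec c)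
    (hM : Primrec M) (hr : Primrec r) : PrimrecPred fun a => Cons (T a) (c a) (M a) (r a) :=
  allN hr (allN (hr.comp fst) (impP
    (p_eqH (hT.comp (fst.comp fst)) (p_wd (snd.comp fst)) (p_wd snd))
    (Primrec.eq.comp (p_dg (hc.comp (fst.comp fst)) (hM.comp (fst.comp fst)) (snd.comp fst))
      (p_dg (hc.comp (fst.comp fst)) (hM.comp (fst.comp fst)) snd))))

theorem p_avoid {I : α → Ins} {M r : α → ℕ} (hI : Primrec I)
    (hM : Primrec M) (hr : Primrec r) : PrimrecPred fun a => Avoid (I a) (M a) (r a) := by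
  have h : Primrec fun q : ((α × ℕ) × List (W × ℕ)) × (W × ℕ) => encode (wd q.1.1.2 ++ q.2.1) :=
    Primrec.encode.comp (list_append.comp (p_wd (snd.comp (fst.comp fst))) (fst.comp snd))
  exact allN hr (allL (snd.comp (hI.comp fst)) (PrimrecPred.not (allL snd
    ((nat_lt.comp h (hr.comp (fst.comp (fst.comp fst)))).and
      (Primrec.eq.comp (p_dg (fst.comp (hI.comp (fst.comp (fst.comp fst))))
        (hM.comp (fst.comp (fst.comp fst))) h) (snd.comp snd))))))

theorem p_nocol {T : α → List Tb} {I : α → Ins} {r : α → ℕ} (hT : Primrec T) (hI : Primrec I)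
    (hr : Primrec r) : PrimrecPred fun a => NoCol (T a) (I a) (r a) :=
  allN (p_pow.comp (fst.comp hI) hr) (PrimrecPred.not
    ((p_cons (hT.comp fst) (fst.comp (hI.comp fst)) snd (hr.comp fst)).and
      (p_avoid (hI.comp fst) snd (hr.comp fst))))

theorem p_agree {s : α → St} {p : α → Tb} (hs : Primrec s) (hp : Primrec p) :
    PrimrecPred fun a => Agree (s a) (p a) :=
  allN (snd.comp hs) (allN (snd.comp (hs.comp fst)) (impP
    (p_eqH (fst.comp (hs.comp (fst.comp fst))) (p_wd (snd.comp fst)) (p_wd snd))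
    (p_eqT (hp.comp (fst.comp fst)) (p_wd (snd.comp fst)) (p_wd snd))))

theorem p_next {k : α → ℕ} {s : α → St} {o : α → Out} (hk : Primrec k) (hs : Primrec s)
    (ho : Primrec o) : PrimrecPred fun a => Next' (k a) (s a) (o a) := by
  have h1 := fst.comp ho
  have hr := fst.comp (snd.comp (snd.comp ho))
  have hN := snd.comp (snd.comp (snd.comp ho))
  have hT := list_cons.comp h1 (fst.comp hs)
  refine impP (allL (fst.comp hs) (p_valid0.comp snd)) ?_
  refine PrimrecPred.and ((p_valid0.comp h1).and (p_agree hs h1)) (PrimrecPred.and ?_ ?_)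
  · exact (nat_le.comp (snd.comp hs) hr).and ((nat_lt.comp (Primrec.encode.comp (p_tw hk hN)) hr).and
      ((nat_lt.comp (const _) hr).and (p_eqH hT (p_tw hk hN) (const _))))
  · exact ((nat_lt.comp (const _) (fst.comp h1)).and (p_col h1 (fst.comp (snd.comp ho))
      (p_ins hk))).or ((Primrec.eq.comp (fst.comp h1) (const _)).and (p_nocol hT (p_ins hk) hr))

end gen

end Pool.Agent.H.MP_018f72_lc
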