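import Pool.Agent.H.MP_018f72_lc.B
import Pool.Agent.H.MP_018f72_lc.C

set_option autoImplicit false
set_option maxHeartbeats 400000

namespace Pool.Agent.H.MP_018f72_lc

open Encodable Equiv

theorem mem_allX (x : X) : x ∈ allX := by revert x; decide

theorem mk_cons (x : X) (w : W) : FreeGroup.mk (x :: w) = FreeGroup.mk [x] * FreeGroup.mk w := by
  rw [FreeGroup.mul_mk]; rfl

theorem mk_true (j : Fin 2) : FreeGroup.mk [(j, true)] = FreeGroup.of j := rfl
theorem mk_false (j : Fin 2) : FreeGroup.mk [(j, false)] = (FreeGroup.of j)⁻¹ := rfl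
theorem mk_nil : FreeGroup.mk ([] : W) = 1 := rfl

def sig (p : Tb) (hp : Valid p) (j : Fin 2) : Perm (Fin p.1) where
  toFun i := ⟨st p.2 i (j, true), (hp i i.2 _ (mem_allX _)).1⟩
  invFun i := ⟨st p.2 i (j, false), (hp i i.2 _ (mem_allX _)).1⟩
  left_inv i := Fin.ext (hp i i.2 (j, true) (mem_allX _)).2
  right_inv i := Fin.ext (hp i i.2 (j, false) (mem_allX _)).2

open Classical in
noncomputable def phT (p : Tb) : F →* Perm (Fin p.1) :=
  if hp : Valid p then FreeGroup.lift (fun j => (sig p hp j)⁻¹) else 1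

theorem phT_ev {p : Tb} (hp : Valid p) (w : W) (i : Fin p.1) :
    ((phT p (FreeGroup.mk w))⁻¹ i : ℕ) = ev p.2 i w := by
  induction w generalizing i with
  | nil => simp [mk_nil, ev]
  | cons x w ih =>
    rw [mk_cons, map_mul, mul_inv_rev, Perm.mul_apply, ih]
    have : ((phT p (FreeGroup.mk [x]))⁻¹ i : ℕ) = st p.2 i x := by
      obtain ⟨j, b⟩ := x
      cases b
      · simp only [mk_false, phT, dif_pos hp, map_inv, inv_inv, FreeGroup.lift_apply_of]; rfl
      · simp only [mk_true, phT, dif_pos hp, inv_inv, FreeGroup.lift_apply_of]; rfl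
    rw [this]; rfl

theorem eqT_iff {p : Tb} (hp : Valid p) (u v : W) :
    eqT p u v ↔ phT p (FreeGroup.mk u) = phT p (FreeGroup.mk v) := by
  rw [← inv_inj]
  constructor
  · intro h
    ext i
    rw [phT_ev hp, phT_ev hp, h i i.2]
  · intro h i hi
    rw [← phT_ev hp u ⟨i, hi⟩, h, phT_ev hp]

def phL : F →* Perm ℤ := FreeGroup.lift ![swap 0 1, (Equiv.addRight 1)⁻¹]

theorem phL_a : phL fa = swap 0 1 := by simp [phL, fa]
theorem phL_t : phL ft = (Equiv.addRight 1)⁻¹ := by simp only [phL, ft, FreeGroup.lift_apply_of]; rfl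

theorem phL_x (x : X) (z : ℤ) : (phL (FreeGroup.mk [x]))⁻¹ z =
    if x = (1, true) then z + 1 else if x = (1, false) then z - 1 else swap 0 1 z := by
  obtain ⟨j, b⟩ := x
  have ha := phL_a
  have ht := phL_t
  simp only [fa, ft] at ha ht
  fin_cases j <;> cases b <;> simp [mk_true, mk_false, ha, ht, sub_eq_add_neg]

theorem val_ev (w : W) (s : ℕ × ℕ) : ((evL s w).1 : ℤ) - (evL s w).2 =
    (phL (FreeGroup.mk w))⁻¹ ((s.1 : ℤ) - s.2) := by
  induction w generalizing s with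
  | nil => simp [mk_nil, evL]
  | cons x w ih =>
    rw [mk_cons, map_mul, mul_inv_rev, Perm.mul_apply, phL_x]
    refine (ih (stL s x)).trans ?_
    congr 1
    simp only [stL, swap_apply_def]
    split_ifs <;> (try simp) <;> omega

theorem far (w : W) : ∃ e : ℤ, ∀ z : ℤ, ((w.length : ℤ) + 1 < z ∨ z < -w.length) →
    (phL (FreeGroup.mk w))⁻¹ z = z + e := by
  induction w with
  | nil => exact ⟨0, fun z _ => by simp [mk_nil]⟩
  | cons x w ih =>
    obtain ⟨e, he⟩ := ih
    refine ⟨(if x = (1, true) then 1 else if x = (1, false) then -1 else 0) + e, fun z hz => ?_⟩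
    rw [mk_cons, map_mul, mul_inv_rev, Perm.mul_apply, phL_x]
    simp only [List.length_cons] at hz
    push_cast at hz
    split_ifs
    · rw [he _ (by omega)]; ring
    · rw [he _ (by omega)]; ring
    · rw [swap_apply_of_ne_of_ne (by omega) (by omega), he _ (by omega)]; ring

theorem eqL_iff (u v : W) : eqL u v ↔ phL (FreeGroup.mk u) = phL (FreeGroup.mk v) := by
  rw [← inv_inj]
  constructor
  · intro h
    have h1 : ∀ z : ℤ, |z| ≤ bd u v → (phL (FreeGroup.mk u))⁻¹ z = (phL (FreeGroup.mk v))⁻¹ z := by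
      intro z hz
      have h2 := abs_le.1 hz
      have h3 := h (z + bd u v).toNat (by omega)
      have h4 := val_ev u ((z + bd u v).toNat, bd u v)
      have h5 := val_ev v ((z + bd u v).toNat, bd u v)
      rw [show (((z + bd u v).toNat : ℤ) - bd u v) = z by omega] at h4 h5
      omega
    obtain ⟨e, he⟩ := far u
    obtain ⟨e', he'⟩ := far v
    have hb : (bd u v : ℤ) = u.length + v.length + 2 := by simp [bd]
    have h6 := h1 (bd u v) (by simp)
    rw [he _ (by omega), he' _ (by omega)] at h6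
    ext z
    by_cases hz : |z| ≤ bd u v
    · exact h1 z hz
    · rw [abs_le] at hz
      rw [he _ (by omega), he' _ (by omega)]; omega
  · intro h i _
    have h4 := val_ev u (i, bd u v)
    have h5 := val_ev v (i, bd u v)
    rw [h] at h4
    omega

theorem phL_tpow (n z : ℤ) : (phL ft ^ n) z = z - n := by
  rw [phL_t]
  simp [sub_eq_add_neg]

theorem phL_ai (i z : ℤ) : ai (phL fa) (phL ft) i z = swap 0 1 (z + i) - i := by
  rw [ai, ← zpow_neg, Perm.mul_apply, Perm.mul_apply, phL_tpow, phL_tpow, phL_a, sub_neg_eq_add]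

theorem fixL (r : ℕ) {γ : Perm ℤ} (hγ : γ ∈ Bs (phL fa) (phL ft) (-r) r) (z : ℤ)
    (hz : z ∉ Set.Icc (-(r : ℤ) - 1) (r + 1)) : γ z = z := by
  induction hγ using Subgroup.closure_induction with
  | mem g hg =>
    obtain ⟨i, h3, h4, rfl⟩ := hg
    simp only [Set.mem_Icc] at hz
    rw [phL_ai, swap_apply_of_ne_of_ne (by omega) (by omega)]; ring
  | one => rfl
  | mul g h _ _ h3 h4 => rw [Perm.mul_apply, h4, h3]
  | inv g _ h3 => rw [Perm.inv_eq_iff_eq, h3]

theorem finL (r : ℕ) : Finite (Bs (phL fa) (phL ft) (-r) r) := by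
  have h1 : ∀ (γ : Bs (phL fa) (phL ft) (-r) r) (z : Set.Icc (-(r : ℤ) - 1) (r + 1)),
      γ.1 z ∈ Set.Icc (-(r : ℤ) - 1) (r + 1) := by
    intro γ z
    by_contra h
    have := γ.1.injective (fixL r γ.2 _ h)
    exact h (this.symm ▸ z.2)
  refine Finite.of_injective (fun γ z => (⟨_, h1 γ z⟩ : Set.Icc (-(r : ℤ) - 1) (r + 1))) ?_
  intro γ γ' h
  ext z
  by_cases hz : z ∈ Set.Icc (-(r : ℤ) - 1) (r + 1)
  · exact congrArg Subtype.val (congrFun h ⟨z, hz⟩)
  · rw [fixL r γ.2 z hz, fixL r γ'.2 z hz]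

noncomputable def Ph {ι : Type} (p : ι → Tb) : F →* Perm ℤ × ∀ i, Perm (Fin (p i).1) :=
  phL.prod (Pi.monoidHom fun i => phT (p i))

theorem Ph_eq {ι : Type} (p : ι → Tb) (u v : F) :
    Ph p u = Ph p v ↔ phL u = phL v ∧ ∀ i, phT (p i) u = phT (p i) v := by
  rw [Prod.ext_iff, funext_iff]; rfl

noncomputable def pr {ι : Type} (p : ι → Tb) : F →* (Ph p).range := (Ph p).rangeRestrict

theorem pr_eq {ι : Type} (p : ι → Tb) (u v : F) :
    pr p u = pr p v ↔ phL u = phL v ∧ ∀ i, phT (p i) u = phT (p i) v := by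
  rw [← Ph_eq, Subtype.ext_iff]; rfl

theorem pr_surj {ι : Type} (p : ι → Tb) : Function.Surjective (pr p) :=
  (Ph p).rangeRestrict_surjective

noncomputable def toL {ι : Type} (p : ι → Tb) : (Ph p).range →* Perm ℤ :=
  (MonoidHom.fst _ _).comp (Ph p).range.subtype

theorem toL_pr {ι : Type} (p : ι → Tb) (u : F) : toL p (pr p u) = phL u := rfl

theorem toL_mem {ι : Type} (p : ι → Tb) {c d : ℤ} {γ : (Ph p).range}
    (h : γ ∈ Bs (pr p fa) (pr p ft) c d) : toL p γ ∈ Bs (phL fa) (phL ft) c d := by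
  rw [← toL_pr p, ← toL_pr p, ← Bs_map]
  exact Subgroup.mem_map_of_mem _ h

theorem fin_pr {ι : Type} [Finite ι] (p : ι → Tb) (r : ℕ) :
    Finite (Bs (pr p fa) (pr p ft) (-r) r) := by
  have := finL r
  refine Finite.of_injective (fun γ => ((⟨_, toL_mem p γ.2⟩ : Bs (phL fa) (phL ft) (-r) r),
    γ.1.1.2)) ?_
  intro γ γ' h
  have h1 := Prod.ext_iff.1 h
  exact Subtype.ext (Subtype.ext (Prod.ext (congrArg Subtype.val h1.1) h1.2))

theorem inf_pr {ι : Type} (p : ι → Tb) (r : ℕ) (γ : (Ph p).range)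
    (h : γ ∈ Bs (pr p fa) (pr p ft) (-r) r) (n : ℤ) (hn : γ * pr p ft ^ n = 1) : n = 0 := by
  have h1 := congrArg (fun g => toL p g (r + 2 + n)) hn
  simp only [map_mul, map_zpow, toL_pr, Perm.mul_apply, phL_tpow, map_one, Perm.one_apply] at h1
  rw [fixL r (toL_mem p h) _ (by simp)] at h1
  omega

def tb (T : List Tb) : {p // p ∈ T} → Tb := Subtype.val

instance (T : List Tb) : Finite {p // p ∈ T} := T.finite_toSet.to_subtype

theorem eqH_iff {T : List Tb} (hT : ∀ p ∈ T, Valid p) (u v : W) :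
    eqH T u v ↔ pr (tb T) (FreeGroup.mk u) = pr (tb T) (FreeGroup.mk v) := by
  rw [pr_eq, eqH, eqL_iff]
  refine and_congr_right fun _ => ⟨fun h i => (eqT_iff (hT _ i.2) u v).1 (h _ i.2),
    fun h p hp => (eqT_iff (hT _ hp) u v).2 (h ⟨p, hp⟩)⟩

theorem mk_cw (k : ℕ) : FreeGroup.mk (cw k) = ai fa ft k := by
  induction k with
  | zero => simp [ai, cw, mk_true, fa]
  | succ k ih =>
    have : cw (k + 1) = (1, true) :: (cw k ++ [(1, false)]) := rfl
    rw [this, mk_cons, ← FreeGroup.mul_mk, ih, mk_true, mk_false]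
    push_cast
    rw [← ai_conj fa ft 1 k]
    simp [ft, mul_assoc]

theorem mk_pw (w : W) (N : ℕ) : FreeGroup.mk (pw w N) = FreeGroup.mk w ^ (N + 1) := by
  induction N with
  | zero => simp [pw]
  | succ N ih =>
    have : pw w (N + 1) = pw w N ++ w := rfl
    rw [this, ← FreeGroup.mul_mk, ih, pow_succ _ (N + 1)]

theorem mk_tw (k N : ℕ) : FreeGroup.mk (tw k N) = (fa⁻¹ * ai fa ft k) ^ (N + 1) := by
  rw [tw, mk_pw, mk_cons, mk_cw]; rfl

theorem tors {T : List Tb} (hT : ∀ p ∈ T, Valid p) (k : ℕ) : ∃ N, eqH T (tw k N) [] := by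
  have := fin_pr (tb T) k
  have h1 : pr (tb T) (fa⁻¹ * ai fa ft k) ∈ Bs (pr (tb T) fa) (pr (tb T) ft) (-k) k := by
    rw [map_mul, map_inv, map_ai]
    refine mul_mem (inv_mem ?_) (ai_mem _ _ (by omega) le_rfl)
    simpa [ai] using ai_mem (pr (tb T) fa) (pr (tb T) ft) (p := -k) (q := k) (i := 0) (by omega)
      (by omega)
  obtain ⟨n, hn, h2⟩ := isOfFinOrder_iff_pow_eq_one.1 (isOfFinOrder_of_finite
    (⟨_, h1⟩ : Bs (pr (tb T) fa) (pr (tb T) ft) (-k) k))
  refine ⟨n - 1, (eqH_iff hT _ _).2 ?_⟩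
  rw [mk_tw, mk_nil, map_one, map_pow, show n - 1 + 1 = n by omega]
  exact congrArg Subtype.val h2

theorem digits (c : ℕ) (r : ℕ) (f : ℕ → ℕ) (hf : ∀ n, f n < c) :
    ∃ M < c ^ r, ∀ n < r, dg c M n = f n := by
  induction r generalizing f with
  | zero => exact ⟨0, by simp, by simp⟩
  | succ r ih =>
    obtain ⟨M, h1, h2⟩ := ih (fun n => f (n + 1)) (fun n => hf _)
    have hc : 0 < c := lt_of_le_of_lt (Nat.zero_le _) (hf 0)
    refine ⟨f 0 + c * M, ?_, fun n hn => ?_⟩
    · have := hf 0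
      rw [pow_succ']; nlinarith
    · rcases n with _ | n
      · simp [dg, Nat.mod_eq_of_lt (hf 0)]
      · rw [← h2 n (by omega), dg, dg, pow_succ', ← Nat.div_div_eq_div_mul,
          Nat.add_mul_div_left _ _ hc, Nat.div_eq_of_lt (hf 0), zero_add]

theorem exl (f : ℕ → ℕ) (M : ℕ) : ∃ T : List ℕ, ∀ n < M, T.getD n 0 = f n :=
  ⟨(List.range M).map f, fun n hn => by simp [List.getD_eq_getElem?_getD, hn]⟩

theorem wd_enc (w : W) : wd (encode w) = w := by simp [wd]

theorem ins_enc (I : Ins) : ins (encode I) = I := by simp [ins]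

end Pool.Agent.H.MP_018f72_lc
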