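import Pool.Agent.H.MP_018f72_lc.D

set_option autoImplicit false
set_option maxHeartbeats 400000

namespace Pool.Agent.H.MP_018f72_lc

open Encodable Equiv Filter

theorem compact (T : List Tb) (I : Ins) (R : ℕ) (h : ∀ r, R ≤ r → ¬ NoCol T I r) :
    ∃ col : ℕ → Fin I.1, (∀ n n', eqH T (wd n) (wd n') → col n = col n') ∧
      ∀ n, ∀ P ∈ I.2, ¬ ∀ q ∈ P, (col (encode (wd n ++ q.1)) : ℕ) = q.2 := by
  have h1 : ∀ r, ∃ M, M < I.1 ^ (r + R + 1) ∧ Cons T I.1 M (r + R + 1) ∧ Avoid I M (r + R + 1) := by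
    intro r
    have := h (r + R + 1) (by omega)
    simp only [NoCol, not_forall, not_not] at this
    obtain ⟨M, h2, h3⟩ := this
    exact ⟨M, h2, h3⟩
  choose M hM hC hA using h1
  have hc : 0 < I.1 := by
    rcases Nat.eq_zero_or_pos I.1 with h0 | h0
    · have := hM 0
      rw [h0] at this
      simp at this
    · exact h0
  have h2 : ∀ n, ∃ j : Fin I.1, ∀ᶠ r in (hyperfilter ℕ : Filter ℕ), dg I.1 (M r) n = j := by
    intro n
    rw [← Ultrafilter.eventually_exists_iff]
    exact Eventually.of_forall fun r => ⟨⟨_, Nat.mod_lt _ hc⟩, rfl⟩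
  choose col hcol using h2
  have h3 : ∀ n, ∀ᶠ r in (hyperfilter ℕ : Filter ℕ), n < r + R + 1 := fun n =>
    Nat.hyperfilter_le_atTop ((eventually_ge_atTop n).mono fun r hr => by omega)
  refine ⟨col, fun n n' he => ?_, fun n P hP hq => ?_⟩
  · obtain ⟨r, ⟨h4, h5⟩, h6, h7⟩ := (((hcol n).and (hcol n')).and ((h3 n).and (h3 n'))).exists
    exact Fin.ext (by rw [← h4, ← h5]; exact hC r n h6 n' h7 he)
  · have h4 : ∀ᶠ r in (hyperfilter ℕ : Filter ℕ), ∀ q ∈ {q | q ∈ P},
        encode (wd n ++ q.1) < r + R + 1 ∧ dg I.1 (M r) (encode (wd n ++ q.1)) = q.2 := by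
      rw [eventually_all_finite P.finite_toSet]
      intro q hq'
      exact (h3 _).and ((hcol _).mono fun r hr => hr.trans (hq q hq'))
    obtain ⟨r, h5, h6⟩ := (h4.and (h3 n)).exists
    exact hA r n h6 P hP h5

theorem table {Ω : Type} [Finite Ω] (φ : F →* Perm Ω) :
    ∃ (p : Tb) (e : Ω ≃ Fin p.1), Valid p ∧
      ∀ w ω, ev p.2 (e ω) w = e ((φ (FreeGroup.mk w))⁻¹ ω) := by
  classical
  have := Fintype.ofFinite Ω
  let m := Fintype.card Ω
  let e : Ω ≃ Fin m := Fintype.equivFin Ω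
  obtain ⟨T, hT⟩ := exl (fun n => if h : n.unpair.1 < m then
    (e ((φ (FreeGroup.mk [(decode n.unpair.2).getD (0, true)]))⁻¹ (e.symm ⟨_, h⟩)) : ℕ) else 0)
    (Finset.univ.sup (fun p : Fin m × X => Nat.pair p.1 (encode p.2)) + 1)
  have hst : ∀ ω x, st T (e ω) x = e ((φ (FreeGroup.mk [x]))⁻¹ ω) := by
    intro ω x
    rw [st, hT _ (Nat.lt_succ_of_le (Finset.le_sup (f := fun p : Fin m × X =>
      Nat.pair p.1 (encode p.2)) (Finset.mem_univ (e ω, x))))]
    simp
  refine ⟨(m, T), e, fun i hi x _ => ?_, fun w => ?_⟩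
  · obtain ⟨ω, hω⟩ := e.surjective ⟨i, hi⟩
    have h1 : i = e ω := by rw [hω]
    subst h1
    show st T _ _ < m ∧ st T _ _ = _
    rw [hst, hst]
    refine ⟨Fin.is_lt _, ?_⟩
    have : FreeGroup.mk [bar x] = (FreeGroup.mk [x])⁻¹ := by
      obtain ⟨j, b⟩ := x
      cases b <;> rfl
    rw [this, map_inv, inv_inv, ← Perm.mul_apply, mul_inv_cancel, Perm.one_apply]
  · induction w with
    | nil => intro ω; simp [ev, mk_nil]
    | cons x w ih =>
      intro ω
      rw [mk_cons, map_mul, mul_inv_rev, Perm.mul_apply, ← ih, ← hst]; rfl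

theorem exists_next (k : ℕ) (s : St) : ∃ o, Next' k s o := by
  classical
  by_cases hT : ∀ p ∈ s.1, Valid p
  swap
  · exact ⟨((0, []), [], 0, 0), fun h => absurd h hT⟩
  have hv : ∀ p, Valid p → ∀ p' ∈ p :: s.1, Valid p' := fun p hp p' hp' => by
    rcases List.mem_cons.1 hp' with rfl | h
    · exact hp
    · exact hT _ h
  have h0 : Valid (0, []) := fun i hi => absurd hi (Nat.not_lt_zero _)
  by_cases hB : ∀ R, ∃ r, R ≤ r ∧ NoCol ((0, []) :: s.1) (ins k) r
  · obtain ⟨N, hN⟩ := tors (hv _ h0) k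
    obtain ⟨r, h1, h2⟩ := hB (s.2 + encode (tw k N) + encode ([] : W) + 1)
    exact ⟨((0, []), [], r, N), fun _ => ⟨⟨h0, fun n _ n' _ _ i hi => absurd hi (Nat.not_lt_zero _)⟩,
      ⟨by show s.2 ≤ r; omega, by show encode (tw k N) < r; omega,
        by show encode ([] : W) < r; omega, hN⟩, Or.inr ⟨rfl, h2⟩⟩⟩
  · simp only [not_forall, not_exists, not_and] at hB
    obtain ⟨R, hR⟩ := hB
    obtain ⟨col, hc1, hc2⟩ := compact _ _ R hR
    set T : List Tb := (0, []) :: s.1 with hTd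
    have hT' := hv _ h0
    have hw : ∀ h : (Ph (tb T)).range, ∃ w : W, pr (tb T) (FreeGroup.mk w) = h := fun h => by
      obtain ⟨g, rfl⟩ := pr_surj _ h
      exact ⟨g.toWord, by rw [FreeGroup.mk_toWord]⟩
    choose w hw using hw
    obtain ⟨Ω, _, hΩ, φ, cl, h1, h2⟩ := star (pr (tb T)) (fin_pr _) (inf_pr _)
      (fun h => col (encode (w h)))
      (((Finset.range s.2 ×ˢ Finset.range s.2).image
        (fun p => FreeGroup.mk (wd p.1) * (FreeGroup.mk (wd p.2))⁻¹)) ∪
        (((ins k).2.flatten.map (fun q => FreeGroup.mk q.1)).toFinset))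
    obtain ⟨p, e, hp, hev⟩ := table φ
    obtain ⟨N, hN⟩ := tors (hv _ hp) k
    obtain ⟨L, hL⟩ := exl (fun n => if h : n < p.1 then (cl (e.symm ⟨n, h⟩) : ℕ) else 0) p.1
    have hL' : ∀ ω, L.getD (e ω) 0 = cl ω := fun ω => by rw [hL _ (Fin.is_lt _)]; simp
    have hi : ∀ i < p.1, ∃ ω, i = e ω := fun i hi => ⟨e.symm ⟨i, hi⟩, by simp⟩
    refine ⟨(p, L, s.2 + encode (tw k N) + encode ([] : W) + 1, N), fun _ => ⟨⟨hp, ?_⟩,
      ⟨by simp only; omega, by simp only; omega, by simp only; omega, hN⟩,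
      Or.inl ⟨lt_of_le_of_lt (Nat.zero_le _) (e hΩ.some).2, ?_, ?_⟩⟩⟩
    · intro n hn n' hn' he i hi'
      obtain ⟨ω, rfl⟩ := hi i hi'
      have h3 : eqH T (wd n) (wd n') := ⟨he.1, fun p' hp' => by
        rcases List.mem_cons.1 hp' with rfl | h
        · exact fun i hi => absurd hi (Nat.not_lt_zero _)
        · exact he.2 _ h⟩
      have h4 := h1 (FreeGroup.mk (wd n) * (FreeGroup.mk (wd n'))⁻¹)
        (Finset.mem_union_left _ (Finset.mem_image.2 ⟨(n, n'), by simp [hn, hn'], rfl⟩))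
        (by rw [map_mul, map_inv, (eqH_iff hT' _ _).1 h3, mul_inv_cancel])
      rw [map_mul, map_inv, mul_inv_eq_one] at h4
      show ev p.2 _ _ = ev p.2 _ _
      rw [hev, hev, h4]
    · intro i hi'
      obtain ⟨ω, rfl⟩ := hi i hi'
      show L.getD _ 0 < _
      rw [hL']
      exact Fin.is_lt _
    · intro i hi' P hP hq
      obtain ⟨ω, rfl⟩ := hi i hi'
      obtain ⟨g, hg⟩ := h2 ω
      refine hc2 (encode (w g)) P hP fun q hq' => ?_
      have h3 : L.getD (ev p.2 (e ω) q.1) 0 = q.2 := hq q hq'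
      rw [hev, hL', hg _ (Finset.mem_union_right _ (by
        rw [List.mem_toFinset, List.mem_map]
        exact ⟨q, List.mem_flatten.2 ⟨P, hP, hq'⟩, rfl⟩))] at h3
      rw [← h3]
      congr 1
      apply hc1
      rw [wd_enc, wd_enc, wd_enc, eqH_iff hT', hw, ← FreeGroup.mul_mk, map_mul, hw]

def od (n : ℕ) : Out := (decode n).getD ((0, []), [], 0, 0)

theorem exn (a : ℕ × St) : ∃ n, Next' a.1 a.2 (od n) := by
  obtain ⟨o, ho⟩ := exists_next a.1 a.2
  exact ⟨encode o, by rw [od, encodek]; exact ho⟩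

open Classical in
noncomputable def nxt (a : ℕ × St) : Out := od (Nat.find (exn a))

theorem nxt_spec (a : ℕ × St) : Next' a.1 a.2 (nxt a) := by
  classical
  exact Nat.find_spec (exn a)

theorem p_od : Primrec od := Primrec.option_getD.comp Primrec.decode (Primrec.const _)

theorem c_nxt : Computable nxt := by
  classical
  refine p_od.to_comp.comp (Computable.find (P := fun (a : ℕ × St) n => Next' a.1 a.2 (od n)) ?_ exn)
  exact (p_next (Primrec.fst.comp Primrec.fst) (Primrec.snd.comp Primrec.fst)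
    (p_od.comp Primrec.snd)).computablePred

noncomputable def state (k : ℕ) : St :=
  Nat.rec ([], 0) (fun k s => ((nxt (k, s)).1 :: s.1, (nxt (k, s)).2.2.1)) k

noncomputable def out (k : ℕ) : Out := nxt (k, state k)

theorem c_state : Computable state := by
  have h : Computable fun p : ℕ × (ℕ × St) => nxt p.2 := c_nxt.comp Computable.snd
  exact Computable.nat_rec (f := id) (g := fun _ => (([], 0) : St))
    (h := fun _ p => ((nxt p).1 :: p.2.1, (nxt p).2.2.1)) Computable.id (Computable.const _)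
    (Computable.pair (Computable.list_cons.comp (Computable.fst.comp h)
      (Computable.fst.comp (Computable.snd.comp Computable.snd)))
      (Computable.fst.comp (Computable.snd.comp (Computable.snd.comp h)))).to₂

theorem c_out : Computable out := c_nxt.comp (Computable.pair Computable.id c_state)

theorem state_succ (k : ℕ) : state (k + 1) = ((out k).1 :: (state k).1, (out k).2.2.1) := rfl

theorem valid_state (k : ℕ) : ∀ p ∈ (state k).1, Valid p := by
  induction k with
  | zero => intro p hp; simp [state] at hp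
  | succ k ih =>
    intro p hp
    rcases List.mem_cons.1 hp with rfl | h
    · exact (nxt_spec (k, state k) ih).1.1
    · exact ih _ h

theorem next_out (k : ℕ) : Next k (state k) (out k) := nxt_spec (k, state k) (valid_state k)

theorem freeze (k n n' : ℕ) (hn : n < (state k).2) (hn' : n' < (state k).2)
    (h : eqH (state k).1 (wd n) (wd n')) (j : ℕ) :
    n < (state (k + j)).2 ∧ n' < (state (k + j)).2 ∧ eqH (state (k + j)).1 (wd n) (wd n') := by
  induction j with
  | zero => exact ⟨hn, hn', h⟩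
  | succ j ih =>
    obtain ⟨h1, h2, h3⟩ := ih
    have h4 := next_out (k + j)
    refine ⟨lt_of_lt_of_le h1 h4.2.1.1, lt_of_lt_of_le h2 h4.2.1.1, h3.1, fun p hp => ?_⟩
    rcases List.mem_cons.1 hp with rfl | h5
    · exact h4.1.2 n h1 n' h2 h3
    · exact h3.2 _ h5

theorem mem_state (i j : ℕ) : (out i).1 ∈ (state (i + 1 + j)).1 := by
  induction j with
  | zero => exact List.mem_cons_self
  | succ j ih => exact List.mem_cons_of_mem _ ih

noncomputable def PP (k : ℕ) : Tb := (out k).1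

theorem freezeG (k n n' : ℕ) (hn : n < (state k).2) (hn' : n' < (state k).2)
    (h : eqH (state k).1 (wd n) (wd n')) :
    pr PP (FreeGroup.mk (wd n)) = pr PP (FreeGroup.mk (wd n')) := by
  rw [pr_eq]
  refine ⟨(eqL_iff _ _).1 h.1, fun i => (eqT_iff (next_out i).1.1 _ _).1 ?_⟩
  refine (freeze k n n' hn hn' h (i + 1)).2.2.2 _ ?_
  rw [show k + (i + 1) = i + 1 + k by omega]
  exact mem_state i k

noncomputable abbrev GG := (Ph PP).range

theorem dec (I : Ins) : (∃ x : GG → Fin I.1, ∀ g, ∀ P ∈ I.2,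
    ¬ ∀ q ∈ P, (x (g * pr PP (FreeGroup.mk q.1)) : ℕ) = q.2) ↔ 0 < (out (encode I)).1.1 := by
  have h := next_out (encode I)
  have h1 := h.2.2
  rw [ins_enc] at h1
  constructor
  · rintro ⟨x, hx⟩
    rcases h1 with h1 | h1
    · exact h1.1
    · exfalso
      obtain ⟨M, hM, h2⟩ := digits I.1 (out (encode I)).2.2.1
        (fun n => x (pr PP (FreeGroup.mk (wd n)))) (fun n => Fin.is_lt _)
      refine h1.2 M hM ⟨fun n hn n' hn' he => ?_, fun n hn P hP hq => ?_⟩
      · rw [h2 n hn, h2 n' hn', freezeG (encode I + 1) n n' hn hn' he]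
      · refine hx (pr PP (FreeGroup.mk (wd n))) P hP fun q hq' => ?_
        rw [← (hq q hq').2, h2 _ (hq q hq').1, wd_enc, ← FreeGroup.mul_mk, map_mul]
  · intro h0
    rcases h1 with h1 | h1
    · refine ⟨fun g => ⟨_, h1.2.1 ((g.1.2 (encode I))⁻¹ ⟨0, h0⟩ : Fin (PP (encode I)).1)
        (Fin.is_lt _)⟩, fun g P hP hq => ?_⟩
      refine h1.2.2 ((g.1.2 (encode I))⁻¹ ⟨0, h0⟩ : Fin (PP (encode I)).1) (Fin.is_lt _) P hP
        fun q hq' => ?_
      rw [← hq q hq', ← phT_ev h.1.1 q.1 ((g.1.2 (encode I))⁻¹ ⟨0, h0⟩ : Fin (PP (encode I)).1)]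
      rfl
    · omega

theorem tor_G (k : ℕ) : IsOfFinOrder (pr PP (fa⁻¹ * ai fa ft k)) := by
  have h := (next_out k).2.1
  have h1 := freezeG (k + 1) _ _ h.2.1 h.2.2.1 (by rw [wd_enc, wd_enc]; exact h.2.2.2)
  rw [wd_enc, wd_enc, mk_tw, mk_nil, map_one, map_pow] at h1
  exact isOfFinOrder_iff_pow_eq_one.2 ⟨_, Nat.succ_pos _, h1⟩

theorem not_vf : ¬ ∃ H : Subgroup GG, H.FiniteIndex ∧ IsFreeGroup H := by
  rintro ⟨H, h1, h2⟩
  have : IsMulTorsionFree H := Function.Injective.isMulTorsionFree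
    (IsFreeGroup.toFreeGroup H).toMonoidHom (IsFreeGroup.toFreeGroup H).injective
  have key : ∀ i k : ℕ, (pr PP (ai fa ft i) : GG ⧸ H) = pr PP (ai fa ft (k + i)) → k = 0 := by
    intro i k h
    have h3 := QuotientGroup.eq.1 h
    have h4 : (pr PP (ai fa ft i))⁻¹ * pr PP (ai fa ft (k + i)) =
        MulAut.conj (pr PP (ft ^ (i : ℤ))) (pr PP (fa⁻¹ * ai fa ft k)) := by
      rw [MulAut.conj_apply, ← map_inv, ← map_inv, ← map_mul, ← map_mul, ← map_mul]
      congr 1
      simp only [ai]; group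
    have h5 : IsOfFinOrder (⟨_, h3⟩ : H) := by
      rw [← H.subtype_injective.isOfFinOrder_iff (f := H.subtype)]
      show IsOfFinOrder ((pr PP (ai fa ft i))⁻¹ * pr PP (ai fa ft (k + i)))
      rw [h4]
      exact (MulAut.conj (pr PP (ft ^ (i : ℤ)))).toMonoidHom.isOfFinOrder (tor_G k)
    have h6 : (pr PP (ai fa ft i))⁻¹ * pr PP (ai fa ft (k + i)) = 1 :=
      congrArg Subtype.val h5.eq_one'
    rw [inv_mul_eq_one, pr_eq, map_ai, map_ai] at h6
    have h7 := congrArg (fun g : Perm ℤ => g (-i)) h6.1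
    simp only [phL_ai, swap_apply_def] at h7
    split_ifs at h7 <;> omega
  obtain ⟨i, j, hij, h⟩ := Finite.exists_ne_map_eq_of_infinite
    (fun i : ℕ => (pr PP (ai fa ft i) : GG ⧸ H))
  rcases lt_or_gt_of_ne hij with h3 | h3
  · have := key i (j - i) (by rw [h]; congr 3; omega)
    omega
  · have := key j (i - j) (by rw [← h]; congr 3; omega)
    omega

theorem clos : Subgroup.closure (Set.range fun j : Fin 2 => pr PP (FreeGroup.of j)) = ⊤ := by
  rw [show (Set.range fun j : Fin 2 => pr PP (FreeGroup.of j)) = pr PP '' Set.range FreeGroup.of by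
    rw [← Set.range_comp]; rfl, ← MonoidHom.map_closure, FreeGroup.closure_range_of]
  exact Subgroup.map_top_of_surjective _ (pr_surj _)

theorem lift_pr : FreeGroup.lift (fun j : Fin 2 => pr PP (FreeGroup.of j)) = pr PP := by
  ext j : 1
  simp

theorem comp_dec : ComputablePred fun I : Ins => 0 < (out (encode I)).1.1 := by
  classical
  exact Computable.computablePred ((Primrec.nat_lt.comp (Primrec.const 0)
    Primrec.id).decide.to_comp.comp (Computable.fst.comp (Computable.fst.comp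
      (c_out.comp Computable.encode))))

end Pool.Agent.H.MP_018f72_lc
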